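import Pool.Agent.H68.Block

/-! # SD.Clo

The vertex sets for which some `k`-flat meets all edges of a fixed family form a closed set.

PROOF. `S` is finite and nonempty; fix `e₀ ∈ S`. For `v : Fin n → Pt d` the following are equivalent: (1) some `k`-flat `L` meets all `e ∈ S`; (2) there are `u : Fin k → Pt d` orthonormal and weights `w : Finset (Fin n) → Fin n → ℝ` (only the `w e`, `e ∈ S`, matter; put `w e = w e₀` for `e ∉ S` or use the subtype `S`) with `w e ∈ stdSimplex ℝ (Fin n)`, `w e i = 0` for `i ∉ e`, and for all `e ∈ S`, with `x e := ∑ i, w e i • v i`: `x e - x e₀ = ∑ j, ⟪u j, x e - x e₀⟫ • u j`.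
(1) ⟹ (2): `u` = `stdOrthonormalBasis ℝ L.direction` (reindexed by `finrank L.direction = k`), coerced; the points of `L ∩ convexHull (v '' e)` are `x e` with weights (for a map `v` that is not injective: `convexHull_eq`, or: `v '' e` is the image of the standard basis vectors of `e` under the linear map `w ↦ ∑ w i • v i`, `LinearMap.image_convexHull`/`convexHull_basis_eq_stdSimplex`; or write `convexHull_eq_union_convexHull_finite_subsets`), `x e - x e₀ ∈ L.direction`. (2) ⟹ (1): `L := AffineSubspace.mk' (x e₀) (span (range u))`, `finrank = k` (`finrank_span_eq_card` with `Orthonormal.linearIndependent`), `x e ∈ L` and `x e ∈ convexHull (v '' e)` (`Convex.sum_mem`, the sum over `e` only).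
The set `P` of the pairs (`(u, w)`, `v`) as in (2) is closed (all conditions are equalities or `≤` of continuous functions; `Orthonormal` = the equalities `⟪u i, u j⟫ = if i = j then 1 else 0`), and `(u, w)` lies in the compact set `K = (closedBall 0 1)^k × stdSimplex^S` (`isCompact_univ_pi`, `isCompact_stdSimplex`, `IsCompact.prod`). The projection of a closed subset of `K ×ˢ univ` to the second factor is closed: `isClosedMap_snd_of_compactSpace` for the subtype `K`, or by sequences. -/

set_option autoImplicit false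

open Module Finset

namespace Pool.Agent.H9.SD

open Pool.Agent.H68

open scoped RealInnerProductSpace

/-- Weights of a point of the convex hull of a family. -/
private theorem clo_weights {d n : ℕ} (v : Fin n → Pt d) (e : Finset (Fin n)) {x : Pt d}
    (hx : x ∈ convexHull ℝ (v '' (e : Set (Fin n)))) :
    ∃ w : Fin n → ℝ, w ∈ stdSimplex ℝ (Fin n) ∧ (∀ i ∉ e, w i = 0) ∧ ∑ i, w i • v i = x := by
  classical
  have h1 : v '' (e : Set (Fin n)) = (Fintype.linearCombination ℝ v) ''
      ((fun i : Fin n => (Pi.single i 1 : Fin n → ℝ)) '' (e : Set (Fin n))) := by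
    rw [Set.image_image]
    apply Set.image_congr
    intro i _
    rw [Fintype.linearCombination_apply_single, one_smul]
  rw [h1, ← LinearMap.image_convexHull] at hx
  obtain ⟨w, hw, hwx⟩ := hx
  have h2 : convexHull ℝ ((fun i : Fin n => (Pi.single i 1 : Fin n → ℝ)) '' (e : Set (Fin n)))
      ⊆ {w | w ∈ stdSimplex ℝ (Fin n) ∧ ∀ i ∉ e, w i = 0} := by
    apply convexHull_min
    · rintro _ ⟨i, hi, rfl⟩
      refine ⟨single_mem_stdSimplex ℝ i, ?_⟩
      intro j hj
      have hij : j ≠ i := fun h => hj (by rw [h]; exact Finset.mem_coe.1 hi)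
      exact Pi.single_eq_of_ne hij 1
    · intro a ha b hb s t hs ht hst
      refine ⟨convex_stdSimplex ℝ (Fin n) ha.1 hb.1 hs ht hst, ?_⟩
      intro i hi
      simp only [Pi.add_apply, Pi.smul_apply, ha.2 i hi, hb.2 i hi, smul_zero, add_zero]
  obtain ⟨h3, h4⟩ := h2 hw
  refine ⟨w, h3, h4, ?_⟩
  rw [← hwx, Fintype.linearCombination_apply]

private theorem clo_frames_compact (d k : ℕ) :
    IsCompact {u : Fin k → Pt d | ∀ i j, ⟪u i, u j⟫ = if i = j then (1 : ℝ) else 0} := by
  apply Metric.isCompact_of_isClosed_isBounded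
  · have : {u : Fin k → Pt d | ∀ i j, ⟪u i, u j⟫ = if i = j then (1 : ℝ) else 0}
        = ⋂ i, ⋂ j, {u : Fin k → Pt d | ⟪u i, u j⟫ = if i = j then (1 : ℝ) else 0} := by
      ext u
      simp
    rw [this]
    refine isClosed_iInter fun i => isClosed_iInter fun j => isClosed_eq ?_ continuous_const
    exact Continuous.inner (𝕜 := ℝ) (continuous_apply i) (continuous_apply j)
  · rw [isBounded_iff_forall_norm_le]
    refine ⟨1, fun u hu => ?_⟩
    rw [pi_norm_le_iff_of_nonneg zero_le_one]
    intro i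
    have h := hu i i
    rw [if_pos rfl, real_inner_self_eq_norm_sq] at h
    nlinarith [norm_nonneg (u i)]

theorem isClosed_met {d k n : ℕ} (S : Finset (Finset (Fin n))) (hS : S.Nonempty) :
    IsClosed {v : Fin n → Pt d | ∃ L : AffineSubspace ℝ (Pt d), IsFlat k L ∧
      ∀ e ∈ S, MeetsIdx v L e} := by
  classical
  obtain ⟨e₀, he₀⟩ := hS
  let K : Set ((Fin k → Pt d) × (Finset (Fin n) → Fin n → ℝ)) :=
    {u : Fin k → Pt d | ∀ i j, ⟪u i, u j⟫ = if i = j then (1 : ℝ) else 0} ×ˢ
      Set.pi Set.univ fun _ => stdSimplex ℝ (Fin n)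
  have hK : IsCompact K := (clo_frames_compact d k).prod
    (isCompact_univ_pi fun _ => isCompact_stdSimplex ℝ (Fin n))
  have : CompactSpace K := isCompact_iff_compactSpace.1 hK
  let X : (Finset (Fin n) → Fin n → ℝ) → (Fin n → Pt d) → Finset (Fin n) → Pt d :=
    fun w v e => ∑ i, w e i • v i
  let P : Set (K × (Fin n → Pt d)) := {z | ∀ e ∈ S, (∀ i ∉ e, z.1.1.2 e i = 0) ∧
    X z.1.1.2 z.2 e - X z.1.1.2 z.2 e₀
      = ∑ j, ⟪z.1.1.1 j, X z.1.1.2 z.2 e - X z.1.1.2 z.2 e₀⟫ • z.1.1.1 j}
  have hXc : ∀ e, Continuous fun z : K × (Fin n → Pt d) => X z.1.1.2 z.2 e := by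
    intro e
    refine continuous_finsetSum _ fun i _ => ?_
    have h1 : Continuous fun z : K × (Fin n → Pt d) => z.1.1.2 e i := by fun_prop
    have h2 : Continuous fun z : K × (Fin n → Pt d) => z.2 i := by fun_prop
    exact h1.smul h2
  have hP : IsClosed P := by
    have e1 : P = ⋂ e ∈ S, ({z : K × (Fin n → Pt d) | ∀ i ∉ e, z.1.1.2 e i = 0} ∩
        {z | X z.1.1.2 z.2 e - X z.1.1.2 z.2 e₀
          = ∑ j, ⟪z.1.1.1 j, X z.1.1.2 z.2 e - X z.1.1.2 z.2 e₀⟫ • z.1.1.1 j}) := by
      ext z
      simp only [P, Set.mem_iInter, Set.mem_inter_iff, Set.mem_ofPred_eq]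
    rw [e1]
    refine isClosed_biInter fun e _ => IsClosed.inter ?_ ?_
    · have e2 : {z : K × (Fin n → Pt d) | ∀ i ∉ e, z.1.1.2 e i = 0}
          = ⋂ i, ⋂ (_ : i ∉ e), {z : K × (Fin n → Pt d) | z.1.1.2 e i = 0} := by
        ext z
        simp only [Set.mem_iInter, Set.mem_ofPred_eq]
      rw [e2]
      refine isClosed_iInter fun i => isClosed_iInter fun _ => isClosed_eq ?_ continuous_const
      fun_prop
    · refine isClosed_eq ((hXc e).sub (hXc e₀)) ?_
      refine continuous_finsetSum _ fun j _ => ?_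
      have h3 : Continuous fun z : K × (Fin n → Pt d) => z.1.1.1 j := by fun_prop
      have h4 : Continuous fun z : K × (Fin n → Pt d) =>
          ⟪z.1.1.1 j, X z.1.1.2 z.2 e - X z.1.1.2 z.2 e₀⟫ :=
        Continuous.inner (𝕜 := ℝ) h3 ((hXc e).sub (hXc e₀))
      exact h4.smul h3
  have hproj := isClosedMap_snd_of_compactSpace (X := K) (Y := Fin n → Pt d) P hP
  convert hproj using 1
  ext v
  constructor
  · rintro ⟨L, hL, hmeet⟩
    have hcard : Fintype.card (Fin k) = finrank ℝ L.direction := by rw [hL.2]; simp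
    let b : OrthonormalBasis (Fin k) ℝ L.direction :=
      (stdOrthonormalBasis ℝ L.direction).reindex (finCongr hL.2)
    have hw : ∀ e ∈ S, ∃ w : Fin n → ℝ, w ∈ stdSimplex ℝ (Fin n) ∧ (∀ i ∉ e, w i = 0) ∧
        ∑ i, w i • v i ∈ L := by
      intro e he
      obtain ⟨x, hxL, hxe⟩ := hmeet e he
      obtain ⟨w, h1, h2, h3⟩ := clo_weights v e hxe
      exact ⟨w, h1, h2, by rw [h3]; exact hxL⟩
    obtain ⟨w₀, hw₀, _, _⟩ := hw e₀ he₀
    let w : Finset (Fin n) → Fin n → ℝ := fun e => if h : e ∈ S then (hw e h).choose else w₀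
    have hwS : ∀ e ∈ S, w e ∈ stdSimplex ℝ (Fin n) ∧ (∀ i ∉ e, w e i = 0) ∧
        ∑ i, w e i • v i ∈ L := by
      intro e he
      simp only [w, dif_pos he]
      exact (hw e he).choose_spec
    have hwK : w ∈ Set.pi Set.univ fun _ : Finset (Fin n) => stdSimplex ℝ (Fin n) := by
      intro e _
      by_cases he : e ∈ S
      · exact (hwS e he).1
      · simp only [w, dif_neg he]
        exact hw₀
    have huK : (fun j => ((b j : L.direction) : Pt d)) ∈
        {u : Fin k → Pt d | ∀ i j, ⟪u i, u j⟫ = if i = j then (1 : ℝ) else 0} := by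
      intro i j
      have h := orthonormal_iff_ite.1 b.orthonormal i j
      rw [← h]
      rfl
    refine ⟨(⟨((fun j => ((b j : L.direction) : Pt d)), w), huK, hwK⟩, v), ?_, rfl⟩
    intro e he
    refine ⟨(hwS e he).2.1, ?_⟩
    have h1 : X w v e - X w v e₀ ∈ L.direction :=
      AffineSubspace.vsub_mem_direction (hwS e he).2.2 (hwS e₀ he₀).2.2
    have h2 := b.sum_repr' ⟨X w v e - X w v e₀, h1⟩
    have h3 := congrArg (fun y : L.direction => (y : Pt d)) h2
    simp only [Submodule.coe_sum, Submodule.coe_smul, Submodule.coe_inner] at h3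
    exact h3.symm
  · rintro ⟨⟨⟨⟨u, w⟩, hu, hw⟩, v'⟩, hz, rfl⟩
    have hon : Orthonormal ℝ u := orthonormal_iff_ite.2 hu
    let L : AffineSubspace ℝ (Pt d) :=
      AffineSubspace.mk' (X w v' e₀) (Submodule.span ℝ (Set.range u))
    refine ⟨L, ⟨⟨X w v' e₀, AffineSubspace.self_mem_mk' _ _⟩, ?_⟩, ?_⟩
    · rw [AffineSubspace.direction_mk', finrank_span_eq_card hon.linearIndependent,
        Fintype.card_fin]
    · intro e he
      obtain ⟨hz1, hz2⟩ := hz e he
      simp only at hz1 hz2
      refine ⟨X w v' e, ?_, ?_⟩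
      · show X w v' e ∈ L
        rw [AffineSubspace.mem_mk', vsub_eq_sub, hz2]
        exact Submodule.sum_mem _ fun j _ =>
          Submodule.smul_mem _ _ (Submodule.subset_span ⟨j, rfl⟩)
      · have hwe : w e ∈ stdSimplex ℝ (Fin n) := hw e (Set.mem_univ e)
        have e3 : X w v' e = ∑ i ∈ e, w e i • v' i := by
          symm
          apply Finset.sum_subset (Finset.subset_univ e)
          intro i _ hi
          rw [hz1 i hi, zero_smul]
        have e4 : ∑ i ∈ e, w e i = 1 := by
          rw [← hwe.2]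
          apply Finset.sum_subset (Finset.subset_univ e)
          intro i _ hi
          exact hz1 i hi
        rw [e3]
        exact (convex_convexHull ℝ _).sum_mem (fun i _ => hwe.1 i) e4
          fun i hi => subset_convexHull ℝ _ ⟨i, Finset.mem_coe.2 hi, rfl⟩

end Pool.Agent.H9.SD
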