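import Mathlib

/-! # SD.Fam

From tuples to edges that are unions of blocks.

PROOF. Let `p : Fin r → Fin s`, `p a = ⟨min a (s-1), _⟩` (surjective because `s ≤ r`), `ι : Fin r × Fin N → Fin n` injective (`finProdFinEquiv` and `Fin.castLE`, `r * N ≤ n`), `M := s * N + 1` or `Fintype.card (Option (Fin s × Fin N))` with an equivalence `ψ : Option (Fin s × Fin N) ≃ Fin M` (`Fintype.equivFin`). Blocks: `bm i = ψ (some (p a, y))` if `i = ι (a, y)` (for the unique `(a, y)`), `ψ none` if `i` is not in the range of `ι`. Edge of `x : Fin s → Fin N`: `E x := univ.image fun a : Fin r => ι (a, x (p a))`: `r` elements (`ι` is injective, first coordinates differ). `(E x).image bm = univ.image fun j : Fin s => ψ (some (j, x j))` (surjectivity of `p`): `s` elements, and it determines `x` (`ψ (some (j, y))` is in it iff `x j = y`). So `E` is injective, `F := X.image E`, the map `e ↦ e.image bm` is injective on `F`.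
Degrees: for a block `b = ψ (some (j, y))` the members of `F` with `b ∈ e.image bm` are the `E x`, `x ∈ X`, `x j = y`; for `b = ψ none` there are none (`0 ≤ D`; use `D` for any `(j, y)` or directly `0`). Two different blocks `ψ (some (i, y))`, `ψ (some (j, z))`: if `i ≠ j` the members containing both are the `E x` with `x i = y`, `x j = z`; if `i = j` then `y ≠ z` and there are none; also none if one block is `ψ none`. -/

set_option autoImplicit false

open Finset

namespace Pool.Agent.H9.SD

theorem exists_blocks {s r n N : ℕ} (hs : 1 ≤ s) (hsr : s ≤ r) (hN : r * N ≤ n)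
    (X : Finset (Fin s → Fin N)) : ∃ (M : ℕ) (bm : Fin n → Fin M) (F : Finset (Finset (Fin n))),
      (∀ e ∈ F, e.card = r) ∧ (∀ e ∈ F, (e.image bm).card = s) ∧ F.card = X.card ∧
      (∀ e ∈ F, ∀ e' ∈ F, e.image bm = e'.image bm → e = e') ∧
      (∀ D : ℕ, (∀ j y, (X.filter fun x => x j = y).card ≤ D) →
        ∀ b, (F.filter fun e => b ∈ e.image bm).card ≤ D) ∧
      (∀ D : ℕ, (∀ i j y z, i ≠ j → (X.filter fun x => x i = y ∧ x j = z).card ≤ D) →
        ∀ b b', b ≠ b' → (F.filter fun e => b ∈ e.image bm ∧ b' ∈ e.image bm).card ≤ D) := by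
  classical
  have hs0 : 0 < s := hs
  let p : Fin r → Fin s := fun a => ⟨min a.1 (s - 1), by omega⟩
  have hp : ∀ j : Fin s, ∃ a : Fin r, p a = j := by
    intro j
    refine ⟨⟨j.1, lt_of_lt_of_le j.2 hsr⟩, ?_⟩
    apply Fin.ext
    show min j.1 (s - 1) = j.1
    have := j.2
    omega
  let ι : Fin r × Fin N → Fin n := fun q => Fin.castLE hN (finProdFinEquiv q)
  have hι : Function.Injective ι := by
    intro q q' h
    exact finProdFinEquiv.injective (Fin.castLE_injective hN h)
  let ψ : Option (Fin s × Fin N) ≃ Fin (Fintype.card (Option (Fin s × Fin N))) :=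
    Fintype.equivFin _
  let bm : Fin n → Fin (Fintype.card (Option (Fin s × Fin N))) :=
    Function.extend ι (fun q => ψ (some (p q.1, q.2))) (fun _ => ψ none)
  have hbm : ∀ q, bm (ι q) = ψ (some (p q.1, q.2)) := fun q => hι.extend_apply _ _ q
  let E : (Fin s → Fin N) → Finset (Fin n) := fun x => univ.image fun a : Fin r => ι (a, x (p a))
  have hmem : ∀ (x : Fin s → Fin N) (b), b ∈ (E x).image bm ↔ ∃ j, ψ (some (j, x j)) = b := by
    intro x b
    constructor
    · intro h
      obtain ⟨i, hi, hb⟩ := Finset.mem_image.1 h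
      obtain ⟨a, -, ha⟩ := Finset.mem_image.1 hi
      refine ⟨p a, ?_⟩
      rw [← hb, ← ha, hbm]
    · rintro ⟨j, hj⟩
      obtain ⟨a, ha⟩ := hp j
      refine Finset.mem_image.2 ⟨ι (a, x (p a)), Finset.mem_image.2 ⟨a, Finset.mem_univ _, rfl⟩, ?_⟩
      rw [hbm, ← hj]
      show ψ (some (p a, x (p a))) = ψ (some (j, x j))
      rw [ha]
  have hcard : ∀ x, (E x).card = r := by
    intro x
    rw [Finset.card_image_of_injective, Finset.card_univ, Fintype.card_fin]
    intro a a' h
    exact congrArg Prod.fst (hι h)
  have himg : ∀ x, (E x).image bm = univ.image fun j : Fin s => ψ (some (j, x j)) := by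
    intro x
    ext b
    rw [hmem]
    simp
  have hcard2 : ∀ x, ((E x).image bm).card = s := by
    intro x
    rw [himg, Finset.card_image_of_injective, Finset.card_univ, Fintype.card_fin]
    intro j j' h
    have h2 := Option.some_injective _ (ψ.injective h)
    exact congrArg Prod.fst h2
  have hdet : ∀ x x', (E x).image bm = (E x').image bm → x = x' := by
    intro x x' h
    funext j
    have h1 : ψ (some (j, x j)) ∈ (E x').image bm := by
      rw [← h, hmem]
      exact ⟨j, rfl⟩
    obtain ⟨j', hj'⟩ := (hmem _ _).1 h1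
    have h2 := Option.some_injective _ (ψ.injective hj')
    have h3 : j' = j := congrArg Prod.fst h2
    have h4 : x' j' = x j := congrArg Prod.snd h2
    rw [← h4, h3]
  have hE : Function.Injective E := by
    intro x x' h
    exact hdet x x' (by rw [h])
  have hone : ∀ (x : Fin s → Fin N) (j : Fin s) (y : Fin N), ψ (some (j, y)) ∈ (E x).image bm →
      x j = y := by
    intro x j y h
    obtain ⟨j', hj'⟩ := (hmem _ _).1 h
    have h2 := Option.some_injective _ (ψ.injective hj')
    have h3 : j' = j := congrArg Prod.fst h2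
    have h4 : x j' = y := congrArg Prod.snd h2
    rw [← h4, h3]
  have hnone : ∀ x : Fin s → Fin N, ψ none ∉ (E x).image bm := by
    intro x h
    obtain ⟨j', hj'⟩ := (hmem _ _).1 h
    have h2 := ψ.injective hj'
    exact absurd h2 (by simp)
  have hfil : ∀ (P : Finset (Fin n) → Prop) [DecidablePred P],
      ((X.image E).filter P).card ≤ (X.filter fun x => P (E x)).card := by
    intro P _
    rw [Finset.filter_image]
    exact Finset.card_image_le
  refine ⟨_, bm, X.image E, ?_, ?_, Finset.card_image_of_injective _ hE, ?_, ?_, ?_⟩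
  · intro e he
    obtain ⟨x, -, rfl⟩ := Finset.mem_image.1 he
    exact hcard x
  · intro e he
    obtain ⟨x, -, rfl⟩ := Finset.mem_image.1 he
    exact hcard2 x
  · intro e he e' he' h
    obtain ⟨x, -, rfl⟩ := Finset.mem_image.1 he
    obtain ⟨x', -, rfl⟩ := Finset.mem_image.1 he'
    rw [hdet x x' h]
  · intro D hD b
    refine (hfil (fun e => b ∈ e.image bm)).trans ?_
    obtain ⟨o, rfl⟩ := ψ.surjective b
    rcases o with _ | ⟨j, y⟩
    · rw [Finset.filter_false_of_mem fun x _ => hnone x]
      simp
    · refine le_trans (Finset.card_le_card ?_) (hD j y)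
      intro x hx
      rw [Finset.mem_filter] at hx ⊢
      exact ⟨hx.1, hone x j y hx.2⟩
  · intro D hD b b' hbb
    refine (hfil (fun e => b ∈ e.image bm ∧ b' ∈ e.image bm)).trans ?_
    obtain ⟨o, rfl⟩ := ψ.surjective b
    obtain ⟨o', rfl⟩ := ψ.surjective b'
    rcases o with _ | ⟨i, y⟩
    · rw [Finset.filter_false_of_mem fun x _ h => hnone x h.1]
      simp
    rcases o' with _ | ⟨j, z⟩
    · rw [Finset.filter_false_of_mem fun x _ h => hnone x h.2]
      simp
    by_cases hij : i = j
    · subst hij
      rw [Finset.filter_false_of_mem]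
      · simp
      · intro x _ h
        apply hbb
        rw [← hone x i y h.1, ← hone x i z h.2]
    · refine le_trans (Finset.card_le_card ?_) (hD i j y z hij)
      intro x hx
      rw [Finset.mem_filter] at hx ⊢
      exact ⟨hx.1, hone x i y hx.2.1, hone x j z hx.2.2⟩

end Pool.Agent.H9.SD
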