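import Pool.Agent.H9.SC.Rng

/-! # SD.GreP

Families of `s`-tuples with small degrees and codegrees (the partite version of H9/SC/Gre).

PROOF. wlog `ε ≤ 1` (or keep `ε`). Let `q := m / N` (real), `Δ := ⌊(1+ε) q⌋₊`, `Δ₂ := ⌊ε q⌋₊`. Among the sets `X` of functions `Fin s → Fin N` with `X.card ≤ m`, all degrees `#{x ∈ X | x j = y} ≤ Δ` and all codegrees (`i ≠ j`) `≤ Δ₂` take one of maximal size (the empty set is one). Suppose `X.card < m`. For `j : Fin s` let `B j` be the set of saturated values `y` (degree `≥ Δ`): `#B j * Δ ≤ ∑_y deg = X.card ≤ m`, `Δ ≥ (1+ε) q - 1 ≥ (1 + ε/2) q` (`q ≥ K ≥ 2/ε`), so `#B j ≤ N/(1+ε/2)` and `A j := univ \ B j` has at least `κ N` elements, `κ := (ε/2)/(1+ε/2)`. For `i ≠ j` the number of saturated pairs `(y, z)` (codegree `≥ Δ₂`) is at most `m/Δ₂ ≤ m/((ε/2) q) = 2N/ε` (`Δ₂ ≥ ε q - 1 ≥ (ε/2) q`).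
The set `Fintype.piFinset A` has `∏ #A j ≥ (κ N)^s` elements; at most `X.card < m ≤ N^s/K` of them are in `X`; at most `s² (2N/ε) N^(s-2) = (2 s²/ε) N^(s-1)` of them have a saturated pair `(x i, x j)`, `i ≠ j` (for a pair `(i, j)` and values `(y, z)` there are `N^(s-2)` functions with `x i = y`, `x j = z`: count by `Fintype.piFinset` with singletons at `i`, `j`, or by the injection to the functions on the other `s - 2` coordinates). If `K ≥ 2/κ^s`, and `N ≥ K'` with `(2 s²/ε) < (κ^s/2) N` (true: `K N ≤ m ≤ N^s/K` gives `K² ≤ N^(s-1)`, so `N` is large when `K` is large) there is `x` in `piFinset A`, not in `X`, without saturated pair: `insert x X` contradicts the maximality (its degrees at `(j, x j)` grow by one, they were `< Δ`; same for the codegrees). So `X.card = m`.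
(See `Gre_core` and `greedy_hyp` in H9/SC/Gre.lean and `range_K` in H9/SC/Rng.lean for the same proof with sets.) -/

set_option autoImplicit false

open Module Finset

namespace Pool.Agent.H9.SD

private lemma GreP_core {s N m D D2 : ℕ}
    (H : ∀ X : Finset (Fin s → Fin N), X.card < m →
      ∃ x : Fin s → Fin N, x ∉ X ∧ (∀ j, (X.filter fun x' => x' j = x j).card < D) ∧
        ∀ i j, i ≠ j → (X.filter fun x' => x' i = x i ∧ x' j = x j).card < D2) :
    ∃ X : Finset (Fin s → Fin N), X.card = m ∧ (∀ j y, (X.filter fun x => x j = y).card ≤ D) ∧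
      ∀ i j y z, i ≠ j → (X.filter fun x => x i = y ∧ x j = z).card ≤ D2 := by
  have step : ∀ l : ℕ, l ≤ m → ∃ X : Finset (Fin s → Fin N), X.card = l ∧
      (∀ j y, (X.filter fun x => x j = y).card ≤ D) ∧
      ∀ i j y z, i ≠ j → (X.filter fun x => x i = y ∧ x j = z).card ≤ D2 := by
    intro l
    induction l with
    | zero => intro _; exact ⟨∅, by simp, by simp, by simp⟩
    | succ l ih =>
      intro hl
      obtain ⟨X, h2, h3, h4⟩ := ih (by omega)
      obtain ⟨x, hxX, hd, hc⟩ := H X (by omega)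
      refine ⟨insert x X, ?_, ?_, ?_⟩
      · rw [Finset.card_insert_of_notMem hxX, h2]
      · intro j y
        rw [Finset.filter_insert]
        split_ifs with hu
        · have h := hd j
          rw [hu] at h
          have h5 := Finset.card_insert_le x (X.filter fun x => x j = y)
          omega
        · exact h3 j y
      · intro i j y z hij
        rw [Finset.filter_insert]
        split_ifs with hu
        · have h := hc i j hij
          rw [hu.1, hu.2] at h
          have h5 := Finset.card_insert_le x (X.filter fun x => x i = y ∧ x j = z)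
          omega
        · exact h4 i j y z hij
  exact step m le_rfl

private lemma GreP_two {s N : ℕ} (i j : Fin s) (hij : i ≠ j) (a b : Fin N) :
    ((univ : Finset (Fin s → Fin N)).filter fun x => a = x i ∧ b = x j).card = N ^ (s - 2) := by
  classical
  have h1 : ((univ : Finset (Fin s → Fin N)).filter fun x => a = x i ∧ b = x j) =
      Fintype.piFinset (fun l : Fin s => if l = i then ({a} : Finset (Fin N)) else
        if l = j then {b} else univ) := by
    ext x
    simp only [mem_filter, mem_univ, true_and, Fintype.mem_piFinset]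
    constructor
    · rintro ⟨h1, h2⟩ l
      by_cases hl : l = i
      · rw [if_pos hl, hl, mem_singleton, h1]
      · by_cases hl2 : l = j
        · rw [if_neg hl, if_pos hl2, hl2, mem_singleton, h2]
        · rw [if_neg hl, if_neg hl2]
          exact mem_univ _
    · intro h
      have h1 := h i
      have h2 := h j
      rw [if_pos rfl, mem_singleton] at h1
      rw [if_neg (Ne.symm hij), if_pos rfl, mem_singleton] at h2
      exact ⟨h1.symm, h2.symm⟩
  rw [h1, Fintype.card_piFinset]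
  have h2 : ∀ l : Fin s, (if l = i then ({a} : Finset (Fin N)) else
      if l = j then {b} else univ).card = if (l = i ∨ l = j) then 1 else N := by
    intro l
    by_cases hl : l = i
    · simp [hl]
    · by_cases hl2 : l = j
      · have hji : j ≠ i := Ne.symm hij
        simp [hl2, hji]
      · simp [hl, hl2]
  rw [prod_congr rfl fun l _ => h2 l, prod_ite, prod_const_one, one_mul, prod_const]
  congr 1
  have h3 : (univ.filter fun l : Fin s => ¬ (l = i ∨ l = j)) = univ \ {i, j} := by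
    ext l
    simp
  rw [h3, card_sdiff_of_subset (subset_univ _), card_univ, Fintype.card_fin, card_pair hij]

private lemma GreP_A {s N m D : ℕ} {ε : ℝ} (hε : 0 < ε) (hN : 1 ≤ N) (hm : 1 ≤ m)
    (hD : (1 + ε / 2) * ((m : ℝ) / N) ≤ D) (X : Finset (Fin s → Fin N)) (hX : X.card < m)
    (j : Fin s) : ε / (2 + ε) * N ≤
      (((univ : Finset (Fin N)).filter fun y => (X.filter fun x => x j = y).card < D).card : ℝ) := by
  classical
  have hN0 : (0 : ℝ) < N := by exact_mod_cast hN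
  have hm0 : (0 : ℝ) < m := by exact_mod_cast hm
  set A : Finset (Fin N) := univ.filter fun y => (X.filter fun x => x j = y).card < D with hA
  have h1 : (Aᶜ).card * D ≤ X.card := by
    calc (Aᶜ).card * D = ∑ _y ∈ Aᶜ, D := by rw [sum_const, smul_eq_mul]
      _ ≤ ∑ y ∈ Aᶜ, (X.filter fun x => x j = y).card := by
          refine sum_le_sum fun y hy => ?_
          rw [hA, mem_compl, mem_filter] at hy
          simpa using hy
      _ ≤ ∑ y : Fin N, (X.filter fun x => x j = y).card :=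
          sum_le_sum_of_subset (subset_univ _)
      _ = X.card := (card_eq_sum_card_fiberwise fun x _ => mem_univ _).symm
  have h2 : ((Aᶜ).card : ℝ) * ((1 + ε / 2) * ((m : ℝ) / N)) ≤ m := by
    have h3 : ((Aᶜ).card : ℝ) * D ≤ m := by exact_mod_cast h1.trans hX.le
    exact (mul_le_mul_of_nonneg_left hD (Nat.cast_nonneg _)).trans h3
  have h3 : ((Aᶜ).card : ℝ) * (1 + ε / 2) ≤ N := by
    have h4 : ((Aᶜ).card : ℝ) * ((1 + ε / 2) * ((m : ℝ) / N)) =
        (((Aᶜ).card : ℝ) * (1 + ε / 2)) * m / N := by ring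
    rw [h4, div_le_iff₀ hN0] at h2
    have h5 : (((Aᶜ).card : ℝ) * (1 + ε / 2)) * m ≤ N * m := by linarith
    exact le_of_mul_le_mul_right h5 hm0
  have h4 : ((Aᶜ).card : ℝ) = N - A.card := by
    rw [card_compl, Fintype.card_fin, Nat.cast_sub]
    exact (card_le_univ A).trans (by rw [Fintype.card_fin])
  rw [h4] at h3
  rw [div_mul_eq_mul_div, div_le_iff₀ (by linarith)]
  nlinarith

private lemma GreP_B {s N m D2 : ℕ} {ε : ℝ} (hε : 0 < ε) (hs : 2 ≤ s) (hN : 1 ≤ N) (hm : 1 ≤ m)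
    (hD2 : ε / 2 * ((m : ℝ) / N) ≤ D2) (X : Finset (Fin s → Fin N)) (hX : X.card < m)
    (i j : Fin s) (hij : i ≠ j) :
    (((univ : Finset (Fin s → Fin N)).filter fun x =>
      D2 ≤ (X.filter fun x' => x' i = x i ∧ x' j = x j).card).card : ℝ) ≤
        2 / ε * (N : ℝ) ^ (s - 1) := by
  classical
  have hN0 : (0 : ℝ) < N := by exact_mod_cast hN
  have hm0 : (0 : ℝ) < m := by exact_mod_cast hm
  set B : Finset (Fin s → Fin N) := univ.filter fun x =>
      D2 ≤ (X.filter fun x' => x' i = x i ∧ x' j = x j).card with hB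
  have h1 : B.card * D2 ≤ X.card * N ^ (s - 2) := by
    calc B.card * D2 = ∑ _x ∈ B, D2 := by rw [sum_const, smul_eq_mul]
      _ ≤ ∑ x ∈ B, (X.filter fun x' => x' i = x i ∧ x' j = x j).card := by
          refine sum_le_sum fun x hx => ?_
          rw [hB, mem_filter] at hx
          exact hx.2
      _ ≤ ∑ x : Fin s → Fin N, (X.filter fun x' => x' i = x i ∧ x' j = x j).card :=
          sum_le_sum_of_subset (subset_univ _)
      _ = ∑ x' ∈ X, (univ.filter fun x : Fin s → Fin N => x' i = x i ∧ x' j = x j).card := by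
          simp only [card_filter]
          exact sum_comm
      _ = X.card * N ^ (s - 2) := by
          rw [sum_congr rfl fun x' _ => GreP_two i j hij (x' i) (x' j), sum_const, smul_eq_mul]
  have h2 : (B.card : ℝ) * (ε / 2 * ((m : ℝ) / N)) ≤ m * (N : ℝ) ^ (s - 2) := by
    have h3 : (B.card : ℝ) * D2 ≤ m * (N : ℝ) ^ (s - 2) := by
      exact_mod_cast h1.trans (Nat.mul_le_mul_right _ hX.le)
    exact (mul_le_mul_of_nonneg_left hD2 (Nat.cast_nonneg _)).trans h3
  have h3 : (N : ℝ) ^ (s - 1) = (N : ℝ) ^ (s - 2) * N := by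
    rw [← pow_succ]
    congr 1
    omega
  have h4 : (B.card : ℝ) * (ε / 2 * ((m : ℝ) / N)) = ((B.card : ℝ) * ε / 2) * m / N := by ring
  rw [h4, div_le_iff₀ hN0] at h2
  have h5 : ((B.card : ℝ) * ε / 2) * m ≤ ((N : ℝ) ^ (s - 2) * N) * m := by linarith
  have h6 := le_of_mul_le_mul_right h5 hm0
  rw [h3, div_mul_eq_mul_div, le_div_iff₀ hε]
  linarith

private lemma GreP_num {s N m D D2 : ℕ} (hs : 2 ≤ s) {ε c : ℝ} (hε : 0 < ε) (hN : 1 ≤ N)
    (hc : c = (ε / (2 + ε)) ^ s) (hD : (1 + ε / 2) * ((m : ℝ) / N) ≤ D)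
    (hD2 : ε / 2 * ((m : ℝ) / N) ≤ D2) (hm : 1 ≤ m) (hmc : (m : ℝ) ≤ c / 2 * (N : ℝ) ^ s)
    (hnc : 2 * (s : ℝ) ^ 2 / ε ≤ c / 2 * N) (X : Finset (Fin s → Fin N)) (hX : X.card < m) :
    ∃ x : Fin s → Fin N, x ∉ X ∧ (∀ j, (X.filter fun x' => x' j = x j).card < D) ∧
      ∀ i j, i ≠ j → (X.filter fun x' => x' i = x i ∧ x' j = x j).card < D2 := by
  classical
  by_contra hcon
  push Not at hcon
  have hN0 : (0 : ℝ) < N := by exact_mod_cast hN
  set A : Fin s → Finset (Fin N) := fun j =>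
    univ.filter fun y => (X.filter fun x => x j = y).card < D with hA
  set P : Finset (Fin s × Fin s) := univ.filter fun p => p.1 ≠ p.2 with hP
  set B : Fin s × Fin s → Finset (Fin s → Fin N) := fun p => univ.filter fun x =>
      D2 ≤ (X.filter fun x' => x' p.1 = x p.1 ∧ x' p.2 = x p.2).card with hB
  have hsub : Fintype.piFinset A ⊆ X ∪ P.biUnion B := by
    intro x hx
    rw [Fintype.mem_piFinset] at hx
    by_cases hxX : x ∈ X
    · exact mem_union_left _ hxX
    · have h1 : ∀ j, (X.filter fun x' => x' j = x j).card < D := by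
        intro j
        have := hx j
        rw [hA] at this
        exact (mem_filter.1 this).2
      obtain ⟨i, j, hij, h2⟩ := hcon x hxX h1
      refine mem_union_right _ (mem_biUnion.2 ⟨(i, j), ?_, ?_⟩)
      · rw [hP, mem_filter]
        exact ⟨mem_univ _, hij⟩
      · rw [hB]
        exact mem_filter.2 ⟨mem_univ _, h2⟩
  have h1 : ((Fintype.piFinset A).card : ℝ) ≤ X.card + ∑ p ∈ P, ((B p).card : ℝ) := by
    have := (card_le_card hsub).trans ((card_union_le _ _).trans
      (Nat.add_le_add_left card_biUnion_le _))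
    exact_mod_cast this
  have h2 : ∑ p ∈ P, ((B p).card : ℝ) ≤ (s : ℝ) ^ 2 * (2 / ε * (N : ℝ) ^ (s - 1)) := by
    have h3 : ∀ p ∈ P, ((B p).card : ℝ) ≤ 2 / ε * (N : ℝ) ^ (s - 1) := by
      intro p hp
      rw [hP, mem_filter] at hp
      exact GreP_B hε hs hN hm hD2 X hX p.1 p.2 hp.2
    refine (sum_le_sum h3).trans ?_
    rw [sum_const, nsmul_eq_mul]
    refine mul_le_mul_of_nonneg_right ?_ (by positivity)
    have h4 : P.card ≤ s ^ 2 := by
      refine (card_le_univ P).trans ?_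
      rw [Fintype.card_prod, Fintype.card_fin, pow_two]
    exact_mod_cast h4
  have h3 : (ε / (2 + ε) * (N : ℝ)) ^ s ≤ ((Fintype.piFinset A).card : ℝ) := by
    rw [Fintype.card_piFinset, Nat.cast_prod]
    have h4 : (ε / (2 + ε) * (N : ℝ)) ^ s = ∏ _j : Fin s, (ε / (2 + ε) * (N : ℝ)) := by
      rw [prod_const, card_univ, Fintype.card_fin]
    rw [h4]
    exact prod_le_prod (fun j _ => by positivity) fun j _ => GreP_A hε hN hm hD X hX j
  have h5 : (X.card : ℝ) < m := by exact_mod_cast hX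
  have h6 : (N : ℝ) ^ s = (N : ℝ) ^ (s - 1) * N := by
    rw [← pow_succ]
    congr 1
    omega
  have h7 : (s : ℝ) ^ 2 * (2 / ε * (N : ℝ) ^ (s - 1)) ≤ c / 2 * (N : ℝ) ^ s := by
    have h8 := mul_le_mul_of_nonneg_right hnc (by positivity : (0 : ℝ) ≤ (N : ℝ) ^ (s - 1))
    have e1 : (s : ℝ) ^ 2 * (2 / ε * (N : ℝ) ^ (s - 1)) = 2 * (s : ℝ) ^ 2 / ε * (N : ℝ) ^ (s - 1) := by
      ring
    rw [e1, h6]
    linarith
  rw [mul_pow, ← hc] at h3
  linarith

theorem greedy_par (s : ℕ) (hs : 2 ≤ s) (ε : ℝ) (hε : 0 < ε) : ∃ K : ℝ, 0 < K ∧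
    ∀ N m : ℕ, 1 ≤ m → K * N ≤ m → K * m ≤ (N : ℝ) ^ s →
      ∃ X : Finset (Fin s → Fin N), X.card = m ∧
        (∀ j y, ((X.filter fun x => x j = y).card : ℝ) ≤ (1 + ε) * ((m : ℝ) / N)) ∧
        ∀ i j y z, i ≠ j →
          ((X.filter fun x => x i = y ∧ x j = z).card : ℝ) ≤ ε * ((m : ℝ) / N) := by
  obtain ⟨c, hc⟩ : ∃ c : ℝ, c = (ε / (2 + ε)) ^ s := ⟨_, rfl⟩
  have hc0 : 0 < c := by rw [hc]; positivity
  obtain ⟨K, hK0, hKA, hK⟩ := Pool.Agent.H9.SC.range_K s hs (⌈2 * (s : ℝ) ^ 2 / ε / (c / 2)⌉₊)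
    (2 / ε + 2 / c)
  refine ⟨K, hK0, fun N m hm h1 h2 => ?_⟩
  obtain ⟨hn, hn1, -⟩ := hK N m h1 h2 hm
  have hn0 : (0 : ℝ) < N := by exact_mod_cast hn1
  have hq : K ≤ (m : ℝ) / N := by rwa [le_div_iff₀ hn0]
  have h2c : (0 : ℝ) < 2 / c := by positivity
  have h2e : (0 : ℝ) < 2 / ε := by positivity
  have hq1 : 2 / ε ≤ (m : ℝ) / N := by linarith
  have hq2 : 1 ≤ ε / 2 * ((m : ℝ) / N) := by
    have := mul_le_mul_of_nonneg_left hq1 (by positivity : 0 ≤ ε / 2)
    have e : ε / 2 * (2 / ε) = 1 := by field_simp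
    linarith
  have hq0 : 0 < (m : ℝ) / N := lt_of_lt_of_le h2e hq1
  have a1 : (1 + ε / 2) * ((m : ℝ) / N) ≤ (⌊(1 + ε) * ((m : ℝ) / N)⌋₊ : ℕ) := by
    have h3 := Nat.lt_floor_add_one ((1 + ε) * ((m : ℝ) / N))
    nlinarith
  have a2 : ε / 2 * ((m : ℝ) / N) ≤ (⌊ε * ((m : ℝ) / N)⌋₊ : ℕ) := by
    have h3 := Nat.lt_floor_add_one (ε * ((m : ℝ) / N))
    nlinarith
  have a4 : (m : ℝ) ≤ c / 2 * (N : ℝ) ^ s := by
    have h3 : 2 / c ≤ K := by linarith
    have h4 : 2 / c * m ≤ (N : ℝ) ^ s :=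
      (mul_le_mul_of_nonneg_right h3 (Nat.cast_nonneg m)).trans h2
    have h5 := mul_le_mul_of_nonneg_left h4 (by positivity : 0 ≤ c / 2)
    have e : c / 2 * (2 / c * m) = m := by field_simp
    linarith
  have a5 : 2 * (s : ℝ) ^ 2 / ε ≤ c / 2 * N := by
    have h3 : 2 * (s : ℝ) ^ 2 / ε / (c / 2) ≤ N := (Nat.le_ceil _).trans (by exact_mod_cast hn)
    rw [div_le_iff₀ (by positivity)] at h3
    linarith
  obtain ⟨X, f2, f3, f4⟩ := GreP_core (s := s) (N := N) (m := m)
    (D := ⌊(1 + ε) * ((m : ℝ) / N)⌋₊) (D2 := ⌊ε * ((m : ℝ) / N)⌋₊)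
    (GreP_num hs hε hn1 hc a1 a2 hm a4 a5)
  refine ⟨X, f2, fun j y => ?_, fun i j y z hij => ?_⟩
  · exact le_trans (Nat.cast_le.2 (f3 j y)) (Nat.floor_le (by positivity))
  · exact le_trans (Nat.cast_le.2 (f4 i j y z hij)) (Nat.floor_le (by positivity))

end Pool.Agent.H9.SD
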