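import Pool.Agent.H9.SD.UpC
import Pool.Agent.H9.SC.Main

/-! # SD.MainC

The final theorem.

PROOF. Clause (1) is clause (1) of `SC.sharp` (`Pool.Agent.H9.SC.sharp`, H9/SC/Main). Clause (2), for each `k < d` (finitely many, as in H9/SC/Main.lean): if `k + r ≤ d` then `min r (d-k) = r` and it is clause (2) of `sharp` (or `lower_B`, `upper_B`); if `k + r > d` and `k + 2 ≤ d` then `min r (d-k) = d-k`: `upper_C`, and `lower_B` (`K * m ≤ n^(d-k) ≤ n^r` because `n ≥ 1`: if `n = 0` then `K m ≤ 0` is false); if `k + 1 = d` the range is empty for `K > 1`: `K n ≤ m`, `K m ≤ n^(min r 1) = n` (`r ≥ 2`), so `K² m ≤ K n ≤ m`. -/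

set_option autoImplicit false

open Module Finset

namespace Pool.Agent.H9.SD

open Pool.Agent.H68 Pool.Agent.H9.SC

private def MainC_Q (s : ℕ) (K : ℝ) (Q : ℕ → ℕ → Prop) : Prop :=
  ∀ n m : ℕ, 1 ≤ m → K * n ≤ m → K * m ≤ (n : ℝ) ^ s → Q n m

private lemma MainC_mono {s : ℕ} {K K' : ℝ} (h : K ≤ K') {Q : ℕ → ℕ → Prop}
    (hQ : MainC_Q s K Q) : MainC_Q s K' Q := by
  intro n m hm h1 h2
  refine hQ n m hm (le_trans ?_ h1) (le_trans ?_ h2)
  · exact mul_le_mul_of_nonneg_right h (Nat.cast_nonneg n)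
  · exact mul_le_mul_of_nonneg_right h (Nat.cast_nonneg m)

private lemma MainC_pow {s r : ℕ} (hsr : s ≤ r) {K : ℝ} (hK : 0 < K) {n m : ℕ} (hs : 1 ≤ s)
    (hm : 1 ≤ m) (h : K * m ≤ (n : ℝ) ^ s) : K * m ≤ (n : ℝ) ^ r := by
  have hm0 : (1 : ℝ) ≤ m := by exact_mod_cast hm
  have hn : 1 ≤ n := by
    rcases Nat.eq_zero_or_pos n with h0 | h0
    · exfalso
      subst h0
      have : ((0 : ℕ) : ℝ) ^ s = 0 := by
        rw [Nat.cast_zero]
        exact zero_pow (by omega)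
      rw [this] at h
      nlinarith
    · exact h0
  refine h.trans (pow_le_pow_right₀ ?_ hsr)
  exact_mod_cast hn

private lemma MainC_k (d r : ℕ) (hr : 2 ≤ r) (hrd : r ≤ d + 1) (ε : ℝ) (hε : 0 < ε) (k : ℕ)
    (hk : k < d) : ∃ K : ℝ, 0 < K ∧ MainC_Q (min r (d - k)) K fun n m =>
      (1 - ε) * (((k : ℝ) + 1) * r * ((m : ℝ) / n)) ≤ (fval d r k m n : ℝ) ∧
      (fval d r k m n : ℝ) ≤ (1 + ε) * (((k : ℝ) + 1) * r * ((m : ℝ) / n)) := by
  obtain ⟨K1, k1, h1⟩ := lower_B (d := d) (k := k) (by omega) hr hrd (by omega) ε hε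
  rcases le_or_gt (k + r) d with hkr | hkr
  · obtain ⟨K2, k2, h2⟩ := upper_B (d := d) (k := k) hr hkr ε hε
    have hmin : min r (d - k) = r := by omega
    rw [hmin]
    refine ⟨K1 + K2, by positivity, ?_⟩
    have a1 := MainC_mono (s := r) (by linarith : K1 ≤ K1 + K2) h1
    have a2 := MainC_mono (s := r) (by linarith : K2 ≤ K1 + K2) h2
    exact fun n m hm g1 g2 => ⟨a1 n m hm g1 g2, a2 n m hm g1 g2⟩
  · rcases le_or_gt (k + 2) d with hk2 | hk2
    · obtain ⟨K2, k2, h2⟩ := upper_C (d := d) (k := k) hrd hk2 hkr ε hε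
      have hmin : min r (d - k) = d - k := by omega
      rw [hmin]
      refine ⟨K1 + K2, by positivity, ?_⟩
      have a1 := MainC_mono (s := r) (by linarith : K1 ≤ K1 + K2) h1
      have a2 := MainC_mono (s := d - k) (by linarith : K2 ≤ K1 + K2) h2
      refine fun n m hm g1 g2 => ⟨a1 n m hm g1 ?_, a2 n m hm g1 g2⟩
      exact MainC_pow (s := d - k) (by omega) (by positivity) (by omega) hm g2
    · refine ⟨2, two_pos, fun n m hm g1 g2 => ?_⟩
      exfalso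
      have hmin : min r (d - k) = 1 := by omega
      rw [hmin, pow_one] at g2
      have hm0 : (1 : ℝ) ≤ m := by exact_mod_cast hm
      linarith

theorem sharp_all (d r : ℕ) (hr : 2 ≤ r) (hrd : r ≤ d + 1) (ε : ℝ) (hε : 0 < ε) :
    ∃ K : ℝ, 0 < K ∧ ∀ n m : ℕ, 1 ≤ m → K * n ≤ m →
      (K * m ≤ (n : ℝ) ^ r →
        (1 - ε) * (d * (((r : ℝ) - 1) / r) * ((r - 1).factorial : ℝ) ^ (1 / ((r : ℝ) - 1)) *
            ((m : ℝ) / n) ^ ((r : ℝ) / ((r : ℝ) - 1))) ≤ (fval d r (d - 1) m n : ℝ) ∧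
        (fval d r (d - 1) m n : ℝ) ≤
          (1 + ε) * (d * (((r : ℝ) - 1) / r) * ((r - 1).factorial : ℝ) ^ (1 / ((r : ℝ) - 1)) *
            ((m : ℝ) / n) ^ ((r : ℝ) / ((r : ℝ) - 1)))) ∧
      (∀ k : ℕ, k < d → K * m ≤ (n : ℝ) ^ min r (d - k) →
        (1 - ε) * (((k : ℝ) + 1) * r * ((m : ℝ) / n)) ≤ (fval d r k m n : ℝ) ∧
        (fval d r k m n : ℝ) ≤ (1 + ε) * (((k : ℝ) + 1) * r * ((m : ℝ) / n))) := by
  obtain ⟨K0, k0, h0⟩ := sharp d r hr ε hε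
  have hex : ∀ k : ℕ, ∃ K : ℝ, 0 < K ∧ (k < d → MainC_Q (min r (d - k)) K fun n m =>
      (1 - ε) * (((k : ℝ) + 1) * r * ((m : ℝ) / n)) ≤ (fval d r k m n : ℝ) ∧
      (fval d r k m n : ℝ) ≤ (1 + ε) * (((k : ℝ) + 1) * r * ((m : ℝ) / n))) := by
    intro k
    by_cases hk : k < d
    · obtain ⟨K, hK, h⟩ := MainC_k d r hr hrd ε hε k hk
      exact ⟨K, hK, fun _ => h⟩
    · exact ⟨1, one_pos, fun h => absurd h hk⟩
  choose f hf0 hf using hex
  have hS : 0 ≤ ∑ k ∈ range d, f k := sum_nonneg fun k _ => (hf0 k).le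
  refine ⟨K0 + ∑ k ∈ range d, f k, by linarith, fun n m hm h1 => ⟨fun h2 => ?_, fun k hk h2 => ?_⟩⟩
  · have hle : K0 ≤ K0 + ∑ k ∈ range d, f k := by linarith
    exact (h0 n m hm ((mul_le_mul_of_nonneg_right hle (Nat.cast_nonneg n)).trans h1)
      ((mul_le_mul_of_nonneg_right hle (Nat.cast_nonneg m)).trans h2)).1 hrd
  · have hle : f k ≤ K0 + ∑ k ∈ range d, f k := by
      have := single_le_sum (f := f) (fun j _ => (hf0 j).le) (mem_range.2 hk)
      linarith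
    exact MainC_mono hle (hf k hk) n m hm h1 h2

end Pool.Agent.H9.SD
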