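import Pool.Agent.H9.SD.Clo

/-! # SD.Nea

Vertex sets near the centers: what a flat meets, some flat meets at the centers.

PROOF. For `S ∈ F.powerset`, `S.Nonempty`, let `Z S` be the closed set of `isClosed_met` (in `Fin n → Pt d`) and `c₀ := c ∘ bm`. The intersection `U` of the complements of the `Z S` with `c₀ ∉ Z S` (`S` runs over a finite set: `isOpen_biInter_finset`) is open and contains `c₀`; `dense_GP` gives `v ∈ U` with `GP v` (`Dense.inter_open_nonempty`). For a `k`-flat `L` let `S := F.filter (MeetsIdx v L)`. If `S` is empty take `L' = L`. Otherwise `v ∈ Z S`, so `c₀ ∈ Z S` (else `v ∈ U` gives `v ∉ Z S`): `L'`. `MeetsIdx (c ∘ bm) L' e` is `MeetsIdx c L' (e.image bm)`: the two images are the same set (`coe_image`, `Set.image_image`/`Set.image_comp`). -/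

set_option autoImplicit false

open Module Finset

namespace Pool.Agent.H9.SD

open Pool.Agent.H68

theorem exists_near {d k n N : ℕ} (c : Fin N → Pt d) (bm : Fin n → Fin N)
    (F : Finset (Finset (Fin n))) : ∃ v : Fin n → Pt d, GP v ∧
      ∀ L : AffineSubspace ℝ (Pt d), IsFlat k L → ∃ L' : AffineSubspace ℝ (Pt d), IsFlat k L' ∧
        ∀ e ∈ F, MeetsIdx v L e → MeetsIdx c L' (e.image bm) := by
  classical
  let Z : Finset (Finset (Fin n)) → Set (Fin n → Pt d) := fun S =>
    {v : Fin n → Pt d | ∃ L : AffineSubspace ℝ (Pt d), IsFlat k L ∧ ∀ e ∈ S, MeetsIdx v L e}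
  let c₀ : Fin n → Pt d := fun i => c (bm i)
  let A : Finset (Finset (Finset (Fin n))) :=
    F.powerset.filter fun S => S.Nonempty ∧ c₀ ∉ Z S
  let U : Set (Fin n → Pt d) := ⋂ S ∈ A, (Z S)ᶜ
  have hU : IsOpen U := by
    refine isOpen_biInter_finset fun S hS => ?_
    have h1 := (mem_filter.1 hS).2.1
    exact (isClosed_met S h1).isOpen_compl
  have hc₀ : c₀ ∈ U := by
    simp only [U, Set.mem_iInter]
    intro S hS
    exact (mem_filter.1 hS).2.2
  obtain ⟨v, hvU, hv⟩ := (dense_GP d n).inter_open_nonempty U hU ⟨c₀, hc₀⟩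
  refine ⟨v, hv, fun L hL => ?_⟩
  set S := F.filter (fun e => MeetsIdx v L e) with hS
  by_cases hne : S.Nonempty
  · have hvZ : v ∈ Z S := ⟨L, hL, fun e he => (mem_filter.1 he).2⟩
    have hcZ : c₀ ∈ Z S := by
      by_contra h
      have hSA : S ∈ A := mem_filter.2 ⟨mem_powerset.2 (filter_subset _ _), hne, h⟩
      simp only [U, Set.mem_iInter] at hvU
      exact hvU S hSA hvZ
    obtain ⟨L', hL', hmeet⟩ := hcZ
    refine ⟨L', hL', fun e he hm => ?_⟩
    have h1 := hmeet e (mem_filter.2 ⟨he, hm⟩)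
    have h2 : c₀ '' (e : Set (Fin n)) = c '' ((e.image bm : Finset (Fin N)) : Set (Fin N)) := by
      rw [coe_image, Set.image_image]
    unfold MeetsIdx at h1 ⊢
    rw [← h2]
    exact h1
  · refine ⟨L, hL, fun e he hm => ?_⟩
    exact absurd ⟨e, mem_filter.2 ⟨he, hm⟩⟩ hne

end Pool.Agent.H9.SD
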