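import Pool.Agent.H9.SD.UpK
import Pool.Agent.H9.SD.GreP
import Pool.Agent.H9.SD.Fam
import Pool.Agent.H9.SC.Rng

/-! # SD.UpC

The upper bound for `k + r > d`, `k ≤ d - 2`, `m ≪ n^(d-k)`.

PROOF. `s := d - k`, so `2 ≤ s`, `k + s = d`, `s < r`. Let `M := ((k+1) d + 1) s (((k+2) d + 1) (s-1))`, `ε' := ε/(4 (M + 4))`-like (`ε ≤ 1` wlog), `K₀` from `greedy_par s hs ε'`. For `n, m` in the range: `N := n / r` (natural division). `N ≥ 1`, `N ≥ n/r - 1 ≥ (1 - ε') n/r` when `n ≥ r/ε'` (`n` is large: `K² ≤ n^(s-1)`), `K₀ N ≤ K n ≤ m`, `K₀ m ≤ N^s` (as `N ≥ n/(2r)`: `K ≥ K₀ (2r)^s`). `X` from `greedy_par`; `exists_blocks` (`r * (n / r) ≤ n`: `Nat.mul_div_le`); `up_blk` with `Δ := ⌊(1+ε') m/N⌋₊`, `Δ₂ := ⌊ε' m/N⌋₊` (the hypotheses of the last two clauses by `Nat.le_floor`). So `f ≤ (k+1) (1+ε') m/N + M ε' m/N ≤ ((k+1)(1+ε') + M ε') (1/(1-ε')) r m/n ≤ (1+ε)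 (k+1) r m/n`. See H9/SC/UpB.lean for the same computation. -/

set_option autoImplicit false

open Module Finset

namespace Pool.Agent.H9.SD

open Pool.Agent.H68 Pool.Agent.H9.SC

theorem upper_C {d k r : ℕ} (hr : r ≤ d + 1) (hk : k + 2 ≤ d) (hkr : d < k + r) (ε : ℝ)
    (hε : 0 < ε) : ∃ K : ℝ, 0 < K ∧ ∀ n m : ℕ, 1 ≤ m → K * n ≤ m → K * m ≤ (n : ℝ) ^ (d - k) →
      (fval d r k m n : ℝ) ≤ (1 + ε) * (((k : ℝ) + 1) * r * ((m : ℝ) / n)) := by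
  classical
  obtain ⟨s, hs⟩ : ∃ s, s = d - k := ⟨_, rfl⟩
  have hs2 : 2 ≤ s := by omega
  have hks : k + s ≤ d := by omega
  have hsr : s ≤ r := by omega
  have hr0 : 0 < r := by omega
  rw [← hs]
  obtain ⟨M, hM⟩ : ∃ M : ℕ, M = ((k + 1) * d + 1) * s * (((k + 2) * d + 1) * (s - 1)) := ⟨_, rfl⟩
  have hM0 : (0 : ℝ) ≤ M := Nat.cast_nonneg M
  obtain ⟨ε', hε'⟩ : ∃ ε' : ℝ, ε' = min 1 (ε / (3 + 2 * M)) := ⟨_, rfl⟩
  have hε'0 : 0 < ε' := by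
    rw [hε']
    exact lt_min one_pos (by positivity)
  have hε'1 : ε' ≤ 1 := hε' ▸ min_le_left _ _
  have hε'2 : (3 + 2 * M) * ε' ≤ ε := by
    have h : ε' ≤ ε / (3 + 2 * M) := hε' ▸ min_le_right _ _
    rw [le_div_iff₀ (by positivity)] at h
    linarith
  obtain ⟨K0, hK00, hK0⟩ := greedy_par s hs2 ε' hε'0
  obtain ⟨K, hK, hKA, hKn⟩ := range_K s hs2 (⌈(1 + ε') * r / ε'⌉₊ + 2 * r)
    (K0 * (2 * r) ^ s + K0)
  refine ⟨K, hK, fun n m hm h1 h2 => ?_⟩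
  obtain ⟨h3, h4, -⟩ := hKn n m h1 h2 hm
  obtain ⟨N, hN⟩ : ∃ N, N = n / r := ⟨_, rfl⟩
  have hrR : (0 : ℝ) < r := by exact_mod_cast hr0
  have hn0 : (0 : ℝ) < n := by exact_mod_cast h4
  have hm0 : (0 : ℝ) < m := by exact_mod_cast hm
  have hrN : r * N ≤ n := hN ▸ Nat.mul_div_le n r
  have hNl : n < r * N + r := by
    rw [hN]
    have := Nat.lt_mul_div_succ n hr0
    rw [Nat.mul_succ] at this
    exact this
  have hn2 : 2 * r ≤ n := by omega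
  have hN1 : 1 ≤ N := by
    rcases Nat.eq_zero_or_pos N with h | h
    · rw [h] at hNl
      omega
    · exact h
  have hN0 : (0 : ℝ) < N := by exact_mod_cast hN1
  have hrNR : (r : ℝ) * N ≤ n := by exact_mod_cast hrN
  have hNlR : (n : ℝ) < r * N + r := by exact_mod_cast hNl
  have hn2R : 2 * (r : ℝ) ≤ n := by exact_mod_cast hn2
  have hnε : (1 + ε') * r ≤ ε' * n := by
    have h5 : ⌈(1 + ε') * r / ε'⌉₊ ≤ n := by omega
    have h6 : (1 + ε') * r / ε' ≤ n := (Nat.le_ceil _).trans (by exact_mod_cast h5)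
    rw [div_le_iff₀ hε'0] at h6
    linarith
  have hnN : (n : ℝ) ≤ (1 + ε') * (r * N) := by nlinarith
  have hn2N : (n : ℝ) ≤ 2 * r * N := by nlinarith
  have hNn : (N : ℝ) ≤ n := by
    have : (1 : ℝ) ≤ r := by exact_mod_cast hr0
    nlinarith
  have e1 : K0 * (N : ℝ) ≤ m := by
    have h5 : K0 ≤ K := by
      have : 0 ≤ K0 * (2 * (r : ℝ)) ^ s := by positivity
      linarith
    calc K0 * (N : ℝ) ≤ K * n := mul_le_mul h5 hNn hN0.le hK.le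
      _ ≤ m := h1
  have e2 : K0 * (m : ℝ) ≤ (N : ℝ) ^ s := by
    have h5 : K0 * (2 * (r : ℝ)) ^ s ≤ K := by linarith
    have h6 : (n : ℝ) ^ s ≤ (2 * r) ^ s * (N : ℝ) ^ s := by
      rw [← mul_pow]
      exact pow_le_pow_left₀ hn0.le hn2N s
    have h7 : K0 * (2 * (r : ℝ)) ^ s * m ≤ (2 * r) ^ s * (N : ℝ) ^ s :=
      (mul_le_mul_of_nonneg_right h5 hm0.le).trans (h2.trans h6)
    have h8 : (0 : ℝ) < (2 * r) ^ s := by positivity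
    have h9 : (2 * (r : ℝ)) ^ s * (K0 * m) ≤ (2 * r) ^ s * (N : ℝ) ^ s := by linarith
    exact le_of_mul_le_mul_left h9 h8
  obtain ⟨X, hXc, hX1, hX2⟩ := hK0 N m hm e1 e2
  obtain ⟨B, bm, F, hFr, hFs, hFc, hinj, hD1, hD2⟩ :=
    exists_blocks (s := s) (r := r) (n := n) (N := N) (by omega) hsr hrN X
  obtain ⟨q', hq'⟩ : ∃ q' : ℝ, q' = (m : ℝ) / N := ⟨_, rfl⟩
  have hq'0 : 0 ≤ q' := by rw [hq']; positivity
  rw [← hq'] at hX1 hX2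
  obtain ⟨Δ, hΔ⟩ : ∃ Δ : ℕ, Δ = ⌊(1 + ε') * q'⌋₊ := ⟨_, rfl⟩
  obtain ⟨Δ₂, hΔ₂⟩ : ∃ Δ₂ : ℕ, Δ₂ = ⌊ε' * q'⌋₊ := ⟨_, rfl⟩
  have hT := up_blk (d := d) (k := k) (s := s) (r := r) (m := m) hs2 hks hr bm F hFr hFs
    (hFc.trans hXc) hinj Δ Δ₂
    (hD1 Δ fun j y => by rw [hΔ]; exact Nat.le_floor (hX1 j y))
    (hD2 Δ₂ fun i j y z hij => by rw [hΔ₂]; exact Nat.le_floor (hX2 i j y z hij))
  have hT' : (fval d r k m n : ℝ) ≤ (k + 1) * Δ + M * Δ₂ := by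
    have h5 : (k + 1) * Δ + ((k + 1) * d + 1) * s * (((k + 2) * d + 1) * (s - 1) * Δ₂) =
        (k + 1) * Δ + M * Δ₂ := by
      rw [hM]
      ring
    rw [h5] at hT
    exact_mod_cast hT
  have hΔr : (Δ : ℝ) ≤ (1 + ε') * q' := by rw [hΔ]; exact Nat.floor_le (by positivity)
  have hΔ₂r : (Δ₂ : ℝ) ≤ ε' * q' := by rw [hΔ₂]; exact Nat.floor_le (by positivity)
  have hk1 : (1 : ℝ) ≤ (k : ℝ) + 1 := by linarith [(Nat.cast_nonneg k : (0 : ℝ) ≤ k)]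
  have hqq : q' ≤ (1 + ε') * (r * ((m : ℝ) / n)) := by
    rw [hq', div_le_iff₀ hN0]
    have h5 : (1 + ε') * (r * ((m : ℝ) / n)) * N = ((1 + ε') * (r * N)) * ((m : ℝ) / n) := by ring
    rw [h5]
    have h6 : (n : ℝ) * ((m : ℝ) / n) = m := by field_simp
    have h7 := mul_le_mul_of_nonneg_right hnN (by positivity : (0 : ℝ) ≤ (m : ℝ) / n)
    linarith
  have hQ0 : (0 : ℝ) ≤ r * ((m : ℝ) / n) := by positivity
  have g1 : (k + 1) * (Δ : ℝ) + M * Δ₂ ≤ (((k : ℝ) + 1) * (1 + (1 + M) * ε')) * q' := by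
    have h5 : ((k : ℝ) + 1) * (Δ : ℝ) ≤ ((k : ℝ) + 1) * ((1 + ε') * q') :=
      mul_le_mul_of_nonneg_left hΔr (by linarith)
    have h6 : (M : ℝ) * Δ₂ ≤ M * (ε' * q') := mul_le_mul_of_nonneg_left hΔ₂r hM0
    have h7 : 0 ≤ M * (ε' * q') := by positivity
    have h8 : M * (ε' * q') ≤ ((k : ℝ) + 1) * (M * (ε' * q')) := le_mul_of_one_le_left h7 hk1
    calc (k + 1) * (Δ : ℝ) + M * Δ₂ ≤ ((k : ℝ) + 1) * ((1 + ε') * q') +
          ((k : ℝ) + 1) * (M * (ε' * q')) := by linarith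
      _ = _ := by ring
  have g2 : (1 + (1 + (M : ℝ)) * ε') * (1 + ε') ≤ 1 + ε := by
    have h5 := mul_le_mul_of_nonneg_left hε'1 (mul_nonneg hM0 hε'0.le)
    have h6 := mul_le_mul_of_nonneg_left hε'1 hε'0.le
    nlinarith
  calc (fval d r k m n : ℝ) ≤ (k + 1) * Δ + M * Δ₂ := hT'
    _ ≤ (((k : ℝ) + 1) * (1 + (1 + M) * ε')) * q' := g1
    _ ≤ (((k : ℝ) + 1) * (1 + (1 + M) * ε')) * ((1 + ε') * (r * ((m : ℝ) / n))) :=
        mul_le_mul_of_nonneg_left hqq (by positivity)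
    _ = ((1 + (1 + (M : ℝ)) * ε') * (1 + ε')) * (((k : ℝ) + 1) * (r * ((m : ℝ) / n))) := by ring
    _ ≤ (1 + ε) * (((k : ℝ) + 1) * (r * ((m : ℝ) / n))) :=
        mul_le_mul_of_nonneg_right g2 (by positivity)
    _ = _ := by ring

end Pool.Agent.H9.SD
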