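import Pool.Agent.H9.SD.Nea
import Pool.Agent.H9.SC.MetB
import Pool.Agent.H9.SC.Cfg

/-! # SD.UpK

The finite upper bound for families of edges on blocks.

PROOF. `exists_cfg hs hks N` (H9/SC/Cfg) gives centers `c : Fin N → Pt d`; `exists_near c bm F` gives `v`. `fval_le` with `mkHyp _ _ v hv F hFr` (as in H9/SC/UpF, UpB); for a `k`-flat `L` take `L'` of `exists_near`: `e ↦ e.image bm` maps the edges of `F` met by `L` injectively (`hinj`) into the members of `F' := F.image (fun e => e.image bm)` met by `L'` (at the centers `c`): `card_le_card_of_injOn`. `met_bound hs hks c .. F'` with `Δ`, `Δ₂`: the number of members of `F'` that contain `b` is at most the number of `e ∈ F` with `b ∈ e.image bm` (the filter of an image is an image of a filter: `card_image_le`). -/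

set_option autoImplicit false

open Module Finset

namespace Pool.Agent.H9.SD

open Pool.Agent.H68 Pool.Agent.H9.SC

theorem up_blk {d k s r n N m : ℕ} (hs : 2 ≤ s) (hks : k + s ≤ d) (hr : r ≤ d + 1)
    (bm : Fin n → Fin N) (F : Finset (Finset (Fin n))) (hFr : ∀ e ∈ F, e.card = r)
    (hFs : ∀ e ∈ F, (e.image bm).card = s) (hFm : F.card = m)
    (hinj : ∀ e ∈ F, ∀ e' ∈ F, e.image bm = e'.image bm → e = e') (Δ Δ₂ : ℕ)
    (hΔ : ∀ b, (F.filter fun e => b ∈ e.image bm).card ≤ Δ)
    (hΔ₂ : ∀ b b', b ≠ b' → (F.filter fun e => b ∈ e.image bm ∧ b' ∈ e.image bm).card ≤ Δ₂) :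
    fval d r k m n ≤
      (k + 1) * Δ + ((k + 1) * d + 1) * s * (((k + 2) * d + 1) * (s - 1) * Δ₂) := by
  classical
  have hd : 1 ≤ d := by omega
  obtain ⟨c, hc, hg1, hg2⟩ := exists_cfg (d := d) (k := k) hs hks N
  obtain ⟨v, hv, hnear⟩ := exists_near (k := k) c bm F
  refine fval_le (mkHyp hd hr v hv F hFr) (mkHyp_card_V ..) ((mkHyp_card_E ..).trans hFm) ?_
  intro L hL
  rw [mkHyp_numMet]
  obtain ⟨L', hL', hmet⟩ := hnear L hL
  set F' : Finset (Finset (Fin N)) := F.image (fun e => e.image bm) with hF'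
  have hF's : ∀ e ∈ F', e.card = s := by
    intro e he
    rw [hF', mem_image] at he
    obtain ⟨e0, he0, rfl⟩ := he
    exact hFs e0 he0
  have h1 : (F.filter fun e => MeetsIdx v L e).card ≤ (F'.filter fun e => MeetsIdx c L' e).card := by
    refine card_le_card_of_injOn (fun e => e.image bm) ?_ ?_
    · intro e he
      have he' := mem_filter.1 (mem_coe.1 he)
      exact mem_coe.2 (mem_filter.2 ⟨mem_image_of_mem _ he'.1, hmet e he'.1 he'.2⟩)
    · intro e he e' he' h
      exact hinj e (mem_filter.1 (mem_coe.1 he)).1 e' (mem_filter.1 (mem_coe.1 he')).1 h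
  refine h1.trans (met_bound hs hks c hc hg1 hg2 F' hF's Δ Δ₂ (fun u => ?_) (fun u w huw => ?_) L' hL')
  · rw [hF', filter_image]
    exact card_image_le.trans (hΔ u)
  · rw [hF', filter_image]
    exact card_image_le.trans (hΔ₂ u w huw)

end Pool.Agent.H9.SD
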